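import Mathlib

open Filter Set Topology Uniformity

namespace Pool.Agent.Results.MP_f56686_gt.NotTukey

/-- Tukey reducibility `P ≤_T Q`: some map `Q → P` sends cofinal subsets of `Q` to cofinal
subsets of `P`. -/
def TukeyLE (P Q : Type) [Preorder P] [Preorder Q] : Prop :=
  ∃ f : Q → P, ∀ s : Set Q, IsCofinal s → IsCofinal (f '' s)

/-- The members of a filter, ordered by reverse inclusion. -/
abbrev RevIncl {α : Type} (F : Filter α) : Type := {s : Set α // s ∈ F}ᵒᵈ

/-- `ω`-narrow uniform space: for every entourage `U`, countably many `U`-balls cover `X`. -/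
def OmegaNarrow (X : Type) [UniformSpace X] : Prop :=
  ∀ U ∈ 𝓤 X, ∃ A : Set X, A.Countable ∧ ⋃ a ∈ A, {y | (a, y) ∈ U} = univ

/-- The two-sided uniformity of a group topology: the coarsest common refinement of the left
and the right uniformity. -/
@[reducible] def twoSided {G : Type} [Group G] (τ : GroupTopology G) : UniformSpace G :=
  @IsTopologicalGroup.leftUniformSpace G _ τ.toTopologicalSpace τ.toIsTopologicalGroup ⊓
    @IsTopologicalGroup.rightUniformSpace G _ τ.toTopologicalSpace τ.toIsTopologicalGroup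

/-- A group topology on the free group on `X` is admissible if the canonical map of `X` into the
free group is uniformly continuous for the two-sided uniformity. -/
def Admissible (X : Type) [u : UniformSpace X] (τ : GroupTopology (FreeGroup X)) : Prop :=
  @UniformContinuous X (FreeGroup X) u (twoSided τ) FreeGroup.of

theorem admissible_iff (X : Type) [UniformSpace X] (τ : GroupTopology (FreeGroup X)) :
    Admissible X τ ↔
      Tendsto (fun p : X × X => (FreeGroup.of p.1)⁻¹ * FreeGroup.of p.2) (𝓤 X)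
        (@nhds _ τ.toTopologicalSpace 1) ∧
      Tendsto (fun p : X × X => FreeGroup.of p.2 * (FreeGroup.of p.1)⁻¹) (𝓤 X)
        (@nhds _ τ.toTopologicalSpace 1) := by
  unfold Admissible UniformContinuous
  rw [show @uniformity _ (twoSided τ) =
      comap (fun p : FreeGroup X × FreeGroup X => p.1⁻¹ * p.2) (@nhds _ τ.toTopologicalSpace 1) ⊓
      comap (fun p : FreeGroup X × FreeGroup X => p.2 * p.1⁻¹) (@nhds _ τ.toTopologicalSpace 1)
      from rfl, tendsto_inf, tendsto_comap_iff, tendsto_comap_iff]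
  rfl

theorem isLeast_sInf (X : Type) [UniformSpace X] :
    IsLeast {σ | Admissible X σ} (sInf {σ | Admissible X σ}) := by
  refine ⟨?_, fun σ hσ => sInf_le hσ⟩
  rw [mem_ofPred_eq, admissible_iff, GroupTopology.toTopologicalSpace_sInf, nhds_sInf]
  simp only [tendsto_iInf]
  constructor
  · rintro _ ⟨σ, hσ, rfl⟩
    exact ((admissible_iff X σ).1 hσ).1
  · rintro _ ⟨σ, hσ, rfl⟩
    exact ((admissible_iff X σ).1 hσ).2

/-- The index set of the isolated points of the big part. -/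
def K : Type := Set ((ℕ → ℕ) → ℕ)

/-- The points of the example. -/
inductive Pt : Type
  | inf : Pt
  | big : K → Pt
  | seq : ℕ → Pt

/-- The basic neighbourhood of the point at infinity. -/
def tail (m : ℕ) (C : Set K) : Set Pt :=
  {p | match p with
    | .inf => True
    | .big ξ => ξ ∉ C
    | .seq j => m ≤ j}

theorem tail_mono {m m' : ℕ} {C C' : Set K} (hm : m ≤ m') (hC : C ⊆ C') :
    tail m' C' ⊆ tail m C := by
  rintro (_ | ξ | j) h
  · trivial
  · exact fun h' => h (hC h')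
  · exact le_trans hm h

/-- The basic entourage. -/
def ent (m : ℕ) (C : Set K) : Set (Pt × Pt) :=
  {p | p.1 = p.2 ∨ (p.1 ∈ tail m C ∧ p.2 ∈ tail m C)}

theorem ent_mono {m m' : ℕ} {C C' : Set K} (hm : m ≤ m') (hC : C ⊆ C') :
    ent m' C' ⊆ ent m C := by
  rintro p (h | ⟨h1, h2⟩)
  · exact Or.inl h
  · exact Or.inr ⟨tail_mono hm hC h1, tail_mono hm hC h2⟩

/-- The filter basis of basic entourages. -/
def entBasis : FilterBasis (Pt × Pt) where
  sets := {U | ∃ m C, C.Countable ∧ U = ent m C}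
  nonempty := ⟨_, 0, ∅, countable_empty, rfl⟩
  inter_sets := by
    rintro _ _ ⟨m, C, hC, rfl⟩ ⟨m', C', hC', rfl⟩
    exact ⟨_, ⟨max m m', C ∪ C', hC.union hC', rfl⟩,
      subset_inter (ent_mono (le_max_left _ _) subset_union_left)
        (ent_mono (le_max_right _ _) subset_union_right)⟩

instance : UniformSpace Pt :=
  UniformSpace.ofCore <| UniformSpace.Core.mkOfBasis entBasis
    (by
      rintro _ ⟨m, C, _, rfl⟩ x
      exact Or.inl rfl)
    (by
      rintro _ ⟨m, C, hC, rfl⟩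
      refine ⟨_, ⟨m, C, hC, rfl⟩, ?_⟩
      rintro p (h | ⟨h1, h2⟩)
      · exact Or.inl h.symm
      · exact Or.inr ⟨h2, h1⟩)
    (by
      rintro _ ⟨m, C, hC, rfl⟩
      refine ⟨_, ⟨m, C, hC, rfl⟩, ?_⟩
      rintro ⟨x, z⟩ ⟨y, (h | ⟨h1, h2⟩), (h' | ⟨h1', h2'⟩)⟩
      · exact Or.inl (h.trans h')
      · have h : x = y := h
        subst h
        exact Or.inr ⟨h1', h2'⟩
      · have h' : y = z := h'
        subst h'
        exact Or.inr ⟨h1, h2⟩
      · exact Or.inr ⟨h1, h2'⟩)

theorem mem_unif {U : Set (Pt × Pt)} :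
    U ∈ 𝓤 Pt ↔ ∃ m C, C.Countable ∧ ent m C ⊆ U := by
  change U ∈ entBasis.filter ↔ _
  rw [FilterBasis.mem_filter_iff]
  constructor
  · rintro ⟨_, ⟨m, C, hC, rfl⟩, h⟩
    exact ⟨m, C, hC, h⟩
  · rintro ⟨m, C, hC, h⟩
    exact ⟨_, ⟨m, C, hC, rfl⟩, h⟩

theorem ent_mem (m : ℕ) {C : Set K} (hC : C.Countable) : ent m C ∈ 𝓤 Pt :=
  mem_unif.2 ⟨m, C, hC, subset_rfl⟩

theorem t2 : T2Space Pt := by
  have : T0Space Pt := by
    rw [t0Space_iff_uniformity]
    intro x y h
    by_contra hne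
    have key : ∀ z : Pt, z ≠ .inf → ∃ m C, C.Countable ∧ z ∉ tail m C := by
      rintro (_ | ξ | j) hz
      · exact absurd rfl hz
      · exact ⟨0, {ξ}, countable_singleton _, fun h => h rfl⟩
      · exact ⟨j + 1, ∅, countable_empty, fun h => absurd (show j + 1 ≤ j from h) (by omega)⟩
    by_cases hx : x = .inf
    · obtain ⟨m, C, hC, hm⟩ := key y (fun hy => hne (hx.trans hy.symm))
      rcases h _ (ent_mem m hC) with h | h
      · exact hne h
      · exact hm h.2
    · obtain ⟨m, C, hC, hm⟩ := key x hx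
      rcases h _ (ent_mem m hC) with h | h
      · exact hne h
      · exact hm h.1
  infer_instance

theorem narrow : OmegaNarrow Pt := by
  intro U hU
  obtain ⟨m, C, hC, h⟩ := mem_unif.1 hU
  refine ⟨{Pt.inf} ∪ Pt.big '' C ∪ range Pt.seq,
    ((countable_singleton _).union (hC.image _)).union (countable_range _), ?_⟩
  refine eq_univ_of_forall fun y => ?_
  simp only [mem_iUnion, mem_ofPred_eq]
  rcases y with _ | ξ | j
  · exact ⟨.inf, Or.inl (Or.inl rfl), h (Or.inl rfl)⟩
  · by_cases hξ : ξ ∈ C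
    · exact ⟨.big ξ, Or.inl (Or.inr ⟨ξ, hξ, rfl⟩), h (Or.inl rfl)⟩
    · exact ⟨.inf, Or.inl (Or.inl rfl), h (Or.inr ⟨trivial, hξ⟩)⟩
  · exact ⟨.seq j, Or.inr ⟨j, rfl⟩, h (Or.inl rfl)⟩

/-- The test elements. -/
def w (ξ : K) (j : ℕ) : FreeGroup Pt :=
  FreeGroup.of (Pt.big ξ) * (FreeGroup.of (Pt.seq j) * (FreeGroup.of Pt.inf)⁻¹) *
    (FreeGroup.of (Pt.big ξ))⁻¹

/-- In an admissible topology, the test elements converge to `1`. -/
theorem exists_bound {τ : GroupTopology (FreeGroup Pt)} (hτ : Admissible Pt τ)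
    {V : Set (FreeGroup Pt)} (hV : V ∈ @nhds _ τ.toTopologicalSpace 1) (ξ : K) :
    ∃ m : ℕ, ∀ j, m ≤ j → w ξ j ∈ V := by
  let := τ.toTopologicalSpace
  have := τ.toIsTopologicalGroup
  have hc : Continuous fun g : FreeGroup Pt =>
      FreeGroup.of (Pt.big ξ) * g * (FreeGroup.of (Pt.big ξ))⁻¹ := by fun_prop
  have h1 : (fun g : FreeGroup Pt =>
      FreeGroup.of (Pt.big ξ) * g * (FreeGroup.of (Pt.big ξ))⁻¹) ⁻¹' V ∈ 𝓝 (1 : FreeGroup Pt) := by
    apply hc.continuousAt.preimage_mem_nhds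
    simpa using hV
  have h2 := ((admissible_iff Pt τ).1 hτ).2 h1
  obtain ⟨m, C, _, h⟩ := mem_unif.1 h2
  refine ⟨m, fun j hj => ?_⟩
  exact @h (Pt.inf, Pt.seq j) (Or.inr ⟨trivial, hj⟩)

/-- The group topology on `G` of pointwise convergence of an action on `ℕ`. -/
@[reducible] def stabBasis {G : Type} [Group G] (π : G →* Equiv.Perm ℕ) : GroupFilterBasis G where
  sets := {U | ∃ A : Finset ℕ, U = {g | ∀ n ∈ A, π g n = n}}
  nonempty := ⟨_, ∅, rfl⟩
  inter_sets := by
    rintro _ _ ⟨A, rfl⟩ ⟨B, rfl⟩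
    refine ⟨_, ⟨A ∪ B, rfl⟩, fun g hg => ⟨fun n hn => hg n ?_, fun n hn => hg n ?_⟩⟩
    · exact Finset.mem_union_left _ hn
    · exact Finset.mem_union_right _ hn
  one' := by
    rintro _ ⟨A, rfl⟩ n _
    simp
  mul' := by
    rintro _ ⟨A, rfl⟩
    refine ⟨_, ⟨A, rfl⟩, ?_⟩
    rintro _ ⟨g, hg, h, hh, rfl⟩ n hn
    simp [hh n hn, hg n hn]
  inv' := by
    rintro _ ⟨A, rfl⟩
    refine ⟨_, ⟨A, rfl⟩, fun g hg n hn => ?_⟩
    have := hg n hn
    simp only [map_inv]
    rw [Equiv.Perm.inv_eq_iff_eq]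
    exact this.symm
  conj' := by
    rintro x _ ⟨A, rfl⟩
    refine ⟨_, ⟨A.image (π x⁻¹), rfl⟩, fun g hg n hn => ?_⟩
    have := hg _ (Finset.mem_image_of_mem _ hn)
    simp only [map_mul, Equiv.Perm.mul_apply, this]
    simp

/-- For every injective sequence `ξ` there is an admissible topology with a neighbourhood of `1`
missing all the elements `w (ξ i) i`. -/
theorem exists_nhds (ξ : ℕ → K) (hξ : Function.Injective ξ) :
    ∃ σ : GroupTopology (FreeGroup Pt), Admissible Pt σ ∧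
      ∃ V ∈ @nhds _ σ.toTopologicalSpace 1, ∀ i, w (ξ i) i ∉ V := by
  classical
  let a : K → Equiv.Perm ℕ := Function.extend ξ (fun i => Equiv.swap 0 (i + 1)) (fun _ => 1)
  let f : Pt → Equiv.Perm ℕ := fun p => match p with
    | .inf => 1
    | .big η => a η
    | .seq j => Equiv.swap (j + 1) (j + 2)
  let π : FreeGroup Pt →* Equiv.Perm ℕ := FreeGroup.lift f
  let B := stabBasis π
  have hfix : ∀ (A : Finset ℕ) (p : Pt), p ∈ tail (A.sup id) (range ξ) → ∀ n ∈ A, f p n = n := by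
    rintro A (_ | η | j) hp n hn
    · rfl
    · have : a η = 1 := Function.extend_apply' _ _ _ hp
      simp [f, this]
    · have h1 : n ≤ A.sup id := Finset.le_sup (f := id) hn
      have h2 : A.sup id ≤ j := hp
      exact Equiv.swap_apply_of_ne_of_ne (by omega) (by omega)
  refine ⟨⟨B.topology, B.isTopologicalGroup⟩, ?_, {g | ∀ n ∈ ({0} : Finset ℕ), π g n = n},
    B.mem_nhds_one ⟨{0}, rfl⟩, ?_⟩
  · rw [admissible_iff]
    constructor
    · rw [B.nhds_one_hasBasis.tendsto_right_iff]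
      rintro _ ⟨A, rfl⟩
      refine mem_unif.2 ⟨A.sup id, range ξ, countable_range _, ?_⟩
      rintro ⟨p, q⟩ (h | ⟨h1, h2⟩) n hn
      · have h : p = q := h
        subst h
        simp
      · simp only [π, map_mul, map_inv, FreeGroup.lift_apply_of, Equiv.Perm.mul_apply]
        rw [hfix A q h2 n hn, Equiv.Perm.inv_eq_iff_eq]
        exact (hfix A p h1 n hn).symm
    · rw [B.nhds_one_hasBasis.tendsto_right_iff]
      rintro _ ⟨A, rfl⟩
      refine mem_unif.2 ⟨A.sup id, range ξ, countable_range _, ?_⟩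
      rintro ⟨p, q⟩ (h | ⟨h1, h2⟩) n hn
      · have h : p = q := h
        subst h
        simp
      · simp only [π, map_mul, map_inv, FreeGroup.lift_apply_of, Equiv.Perm.mul_apply]
        have : (f p)⁻¹ n = n := by
          rw [Equiv.Perm.inv_eq_iff_eq]
          exact (hfix A p h1 n hn).symm
        rw [this, hfix A q h2 n hn]
  · intro i hi
    have h0 := hi 0 (Finset.mem_singleton_self _)
    have ha : a (ξ i) = Equiv.swap 0 (i + 1) := hξ.extend_apply _ _ _
    simp only [w, π, f, map_mul, map_inv, FreeGroup.lift_apply_of, Equiv.Perm.mul_apply, ha,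
      Equiv.swap_inv, Equiv.swap_apply_left, inv_one, Equiv.Perm.one_apply] at h0
    rw [Equiv.swap_apply_of_ne_of_ne (by omega) (by omega)] at h0
    omega

theorem pigeon (col : K → (ℕ → ℕ) → ℕ) :
    ∃ ξ : ℕ → K, Function.Injective ξ ∧ ∀ i, col (ξ i) = col (ξ 0) := by
  have hlt : Cardinal.mk ((ℕ → ℕ) → ℕ) < Cardinal.mk K := by
    unfold K
    rw [Cardinal.mk_set]
    exact Cardinal.cantor _
  obtain ⟨c, hc⟩ := Cardinal.exists_infinite_fiber' col hlt
  let e := Infinite.natEmbedding (col ⁻¹' {c})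
  refine ⟨fun i => (e i : K), Subtype.val_injective.comp e.injective, fun i => ?_⟩
  exact (e i).2.trans (e 0).2.symm

theorem not_tukeyLE {τ : GroupTopology (FreeGroup Pt)} (hτ : IsLeast {σ | Admissible Pt σ} τ) :
    ¬ TukeyLE (RevIncl (@nhds _ τ.toTopologicalSpace 1)) (ℕ → RevIncl (𝓤 Pt)) := by
  classical
  rintro ⟨φ, hφ⟩
  -- `φ` is convergent
  have hconv : ∀ V : RevIncl (@nhds _ τ.toTopologicalSpace 1),
      ∃ s : ℕ → RevIncl (𝓤 Pt), ∀ t, s ≤ t → V ≤ φ t := by
    intro V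
    by_contra hcon
    push Not at hcon
    obtain ⟨_, ⟨t, ht, rfl⟩, hle⟩ := hφ {t | ¬ V ≤ φ t}
      (fun s => by
        obtain ⟨t, h1, h2⟩ := hcon s
        exact ⟨t, h2, h1⟩) V
    exact ht hle
  -- the basic points of the power
  let s : (ℕ → ℕ) → {C : Set K // C.Countable} → ℕ → RevIncl (𝓤 Pt) :=
    fun h C n => OrderDual.toDual ⟨ent (h n) C.1, ent_mem _ C.2⟩
  -- the monotone modification of `φ`
  let ψ : (ℕ → RevIncl (𝓤 Pt)) → Set (FreeGroup Pt) :=
    fun r => ⋃ t, ⋃ (_ : r ≤ t), (OrderDual.ofDual (φ t)).1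
  have hψmem : ∀ r, ψ r ∈ @nhds _ τ.toTopologicalSpace 1 := fun r =>
    mem_of_superset (OrderDual.ofDual (φ r)).2
      (subset_iUnion₂_of_subset r le_rfl subset_rfl)
  have hψmono : ∀ r r', r ≤ r' → ψ r' ⊆ ψ r := fun r r' h =>
    iUnion₂_subset fun t ht => subset_iUnion₂_of_subset t (h.trans ht) subset_rfl
  -- a bound which does not depend on the countable set
  have hbound : ∀ (ξ : K) (h : ℕ → ℕ), ∃ m : ℕ, ∀ C, ∀ j, m ≤ j → w ξ j ∈ ψ (s h C) := by
    intro ξ h
    by_contra hcon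
    push Not at hcon
    choose C j hj hw using hcon
    let D : {C : Set K // C.Countable} := ⟨⋃ m, (C m).1, countable_iUnion fun m => (C m).2⟩
    obtain ⟨m, hm⟩ := exists_bound hτ.1 (hψmem (s h D)) ξ
    refine hw m (hψmono _ _ ?_ (hm _ (hj m)))
    intro n
    exact ent_mono le_rfl (subset_iUnion (fun m => (C m).1) m)
  choose col hcol using hbound
  obtain ⟨ξ, hξ, hsame⟩ := pigeon col
  obtain ⟨σ, hσ, V, hV, hw⟩ := exists_nhds ξ hξ
  have hV' : V ∈ @nhds _ τ.toTopologicalSpace 1 :=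
    nhds_mono (GroupTopology.toTopologicalSpace_le.2 (hτ.2 hσ)) hV
  obtain ⟨r, hr⟩ := hconv (OrderDual.toDual ⟨V, hV'⟩)
  choose h C hC hsub using fun n => mem_unif.1 (OrderDual.ofDual (r n)).2
  let D : {C : Set K // C.Countable} := ⟨⋃ n, C n, countable_iUnion hC⟩
  have hle : r ≤ s h D := fun n =>
    (ent_mono le_rfl (subset_iUnion C n)).trans (hsub n)
  have hψV : ψ (s h D) ⊆ V := iUnion₂_subset fun t ht => hr t (hle.trans ht)
  have := hcol (ξ (col (ξ 0) h)) h D (col (ξ 0) h) (by rw [hsame])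
  exact hw _ (hψV this)

/-- There is a Hausdorff `ω`-narrow uniform space `X` such that, for the finest admissible group
topology on the free group on `X`, the neighbourhood filter of the identity is not Tukey below
the countable power of the uniformity; in particular the two are not Tukey equivalent. -/
theorem result :
    ∃ (X : Type) (_ : UniformSpace X), T2Space X ∧ OmegaNarrow X ∧
      ∃ τ : GroupTopology (FreeGroup X), IsLeast {σ | Admissible X σ} τ ∧
        ¬ TukeyLE (RevIncl (@nhds _ τ.toTopologicalSpace 1)) (ℕ → RevIncl (𝓤 X)) :=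
  ⟨Pt, inferInstance, t2, narrow, _, isLeast_sInf Pt, not_tukeyLE (isLeast_sInf Pt)⟩

end Pool.Agent.Results.MP_f56686_gt.NotTukey
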